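import Mathlib

open Finset

namespace Pool.Agent.Helper4.CoprimeShift

/-- The sequence of the problem: `a_0 = n`, `a_1 = 1` and, for `k ≥ 2`, `a_k` is the smallest
integer `m > a_{k-1}` with `gcd (n - m, n - a_i) = 1` for every `1 ≤ i < k`.
The recursion is written down without the stopping rule; the sums below only use the terms
`a_i < n`. -/
noncomputable def a (n : ℕ) : ℕ → ℕ
  | 0 => n
  | 1 => 1
  | (k + 2) => sInf {m : ℕ | a n (k + 1) < m ∧
      ∀ i : Fin (k + 2), 1 ≤ (i : ℕ) → Int.gcd ((n : ℤ) - m) ((n : ℤ) - a n i) = 1}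
termination_by k => k
decreasing_by
  · omega
  · exact i.isLt

/-- The indices `i ≥ 1` with `a_i < n` (as `a_i ≥ i` for a term below `n`, they satisfy `i < n`). -/
noncomputable def indices (n : ℕ) : Finset ℕ := (Ico 1 n).filter (fun i => a n i < n)

/-- The index `i` is small-divisor: `n - a_i` is divisible by some prime `p ≤ a_i`. -/
def SmallDivisor (n i : ℕ) : Prop := ∃ p : ℕ, p.Prime ∧ p ≤ a n i ∧ p ∣ n - a n i

/-- `S(n)`, the sum of `1 / a_i` over all `i ≥ 1` with `a_i < n`. -/
noncomputable def S (n : ℕ) : ℝ := ∑ i ∈ indices n, (1 : ℝ) / a n i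

open scoped Classical in
/-- `S_1(n)`, the part of `S(n)` over the small-divisor indices. -/
noncomputable def S1 (n : ℕ) : ℝ := ∑ i ∈ (indices n).filter (SmallDivisor n), (1 : ℝ) / a n i

/-- `S_2(n) = S(n) - S_1(n)`, the part of `S(n)` over the remaining indices. -/
noncomputable def S2 (n : ℕ) : ℝ := S n - S1 n

end Pool.Agent.Helper4.CoprimeShift
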