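import Mathlib

open Finset

namespace Pool.Agent.Helper4

open scoped Classical in
/-- The positive integers up to `x` all of whose prime factors are at least `y`. -/
noncomputable def rough (y x : ℕ) : Finset ℕ :=
  (Icc 1 x).filter (fun m => ∀ p : ℕ, p.Prime → p ∣ m → y ≤ p)

lemma mem_rough {y x m : ℕ} :
    m ∈ rough y x ↔ (1 ≤ m ∧ m ≤ x) ∧ ∀ p : ℕ, p.Prime → p ∣ m → y ≤ p := by
  simp [rough]

lemma rough_coprime_small {y x l s : ℕ} (hl : l ∈ rough y x) (hs1 : 1 ≤ s) (hs : s < y) :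
    Nat.Coprime l s := by
  rw [mem_rough] at hl
  refine Nat.Coprime.symm ?_
  rw [Nat.coprime_iff_gcd_eq_one] 
  by_contra h
  obtain ⟨p, hp, hpd⟩ := Nat.exists_prime_and_dvd h
  have h1 : p ∣ s := hpd.trans (Nat.gcd_dvd_left _ _)
  have h2 : p ∣ l := hpd.trans (Nat.gcd_dvd_right _ _)
  have h3 := hl.2 p hp h2
  have h4 := Nat.le_of_dvd (by omega) h1
  omega

lemma mul_inj_rough {y x l s l' s' : ℕ} (hl : l ∈ rough y x) (hs1 : 1 ≤ s) (hs : s < y)
    (hl' : l' ∈ rough y x) (hs1' : 1 ≤ s') (hs' : s' < y) (h : l * s = l' * s') :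
    l = l' ∧ s = s' := by
  have c1 := rough_coprime_small hl hs1' hs'
  have c2 := rough_coprime_small hl' hs1 hs
  have d1 : l ∣ l' := by
    apply c1.dvd_of_dvd_mul_right
    rw [← h]; exact Dvd.intro _ rfl
  have d2 : l' ∣ l := by
    apply c2.dvd_of_dvd_mul_right
    rw [h]; exact Dvd.intro _ rfl
  have e : l = l' := Nat.dvd_antisymm d1 d2
  subst e
  have hlpos : 0 < l := (mem_rough.mp hl).1.1
  exact ⟨rfl, Nat.eq_of_mul_eq_mul_left hlpos h⟩

lemma sum_Icc_inv_le (n : ℕ) : ∑ m ∈ Icc 1 n, (1 : ℝ) / m ≤ 1 + Real.log n := by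
  have h := harmonic_le_one_add_log n
  rw [harmonic_eq_sum_Icc] at h
  push_cast at h
  simpa [one_div] using h

lemma log_le_sum_Icc_inv (n : ℕ) : Real.log (n + 1) ≤ ∑ m ∈ Icc 1 n, (1 : ℝ) / m := by
  have h := log_add_one_le_harmonic n
  rw [harmonic_eq_sum_Icc] at h
  push_cast at h
  simpa [one_div] using h

lemma sum_inv_rough {y x : ℕ} (hy : 2 ≤ y) (hyx : y ≤ x) :
    (∑ l ∈ rough y x, (1 : ℝ) / l) * Real.log y ≤ 1 + 2 * Real.log x := by
  have hsmall : Real.log y ≤ ∑ s ∈ Icc 1 (y - 1), (1 : ℝ) / s := by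
    have h := log_le_sum_Icc_inv (y - 1)
    have e : (((y - 1 : ℕ) : ℝ) + 1) = y := by
      rw [Nat.cast_sub (by omega)]; push_cast; ring
    rwa [e] at h
  have hnn : 0 ≤ ∑ l ∈ rough y x, (1 : ℝ) / l := by positivity
  have key : (∑ l ∈ rough y x, (1 : ℝ) / l) * ∑ s ∈ Icc 1 (y - 1), (1 : ℝ) / s
      ≤ ∑ m ∈ Icc 1 (x * x), (1 : ℝ) / m := by
    rw [sum_mul_sum, ← sum_product']
    have : ∑ q ∈ rough y x ×ˢ Icc 1 (y - 1), (1 : ℝ) / q.1 * (1 / q.2)
        = ∑ m ∈ (rough y x ×ˢ Icc 1 (y - 1)).image (fun q => q.1 * q.2), (1 : ℝ) / m := by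
      rw [sum_image]
      · apply sum_congr rfl
        intro q _
        push_cast
        rw [one_div, one_div, one_div, mul_inv]
      · intro q hq q' hq' h
        simp only [coe_product, Set.mem_prod, mem_coe, mem_Icc] at hq hq'
        obtain ⟨h1, h2⟩ := mul_inj_rough hq.1 hq.2.1 (by omega) hq'.1 hq'.2.1 (by omega) h
        exact Prod.ext h1 h2
    rw [this]
    apply sum_le_sum_of_subset_of_nonneg
    · intro m hm
      rw [mem_image] at hm
      obtain ⟨q, hq, rfl⟩ := hm
      rw [mem_product, mem_Icc, mem_rough] at hq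
      rw [mem_Icc]
      constructor
      · exact Nat.mul_pos (by omega) (by omega)
      · exact Nat.mul_le_mul hq.1.1.2 (by omega)
    · intros; positivity
  calc (∑ l ∈ rough y x, (1 : ℝ) / l) * Real.log y
      ≤ (∑ l ∈ rough y x, (1 : ℝ) / l) * ∑ s ∈ Icc 1 (y - 1), (1 : ℝ) / s := by gcongr
    _ ≤ ∑ m ∈ Icc 1 (x * x), (1 : ℝ) / m := key
    _ ≤ 1 + Real.log ((x * x : ℕ) : ℝ) := sum_Icc_inv_le _
    _ = 1 + 2 * Real.log x := by
        have hx0 : (x : ℝ) ≠ 0 := by
          have : x ≠ 0 := by omega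
          exact_mod_cast this
        push_cast
        rw [Real.log_mul hx0 hx0]; ring

open ArithmeticFunction in
lemma sum_log_rough_le (y x : ℕ) :
    ∑ m ∈ rough y x, Real.log m ≤ (Real.log 4 + 4) * x * ∑ l ∈ rough y x, (1 : ℝ) / l := by
  have step1 : ∑ m ∈ rough y x, Real.log m
      = ∑ q ∈ (rough y x).sigma (fun m => m.divisors), vonMangoldt q.2 := by
    rw [sum_sigma]
    apply sum_congr rfl
    intro m _
    rw [vonMangoldt_sum]
  have step2 : ∑ q ∈ (rough y x).sigma (fun m => m.divisors), vonMangoldt q.2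
      ≤ ∑ q ∈ (rough y x).sigma (fun l => Ioc 0 (x / l)), vonMangoldt q.2 := by
    have hinj : Set.InjOn (fun q : (Σ _ : ℕ, ℕ) => (⟨q.1 / q.2, q.2⟩ : (Σ _ : ℕ, ℕ)))
        ((rough y x).sigma (fun m => m.divisors)) := by
      intro q hq q' hq' h
      simp only [coe_sigma, Set.mem_sigma_iff, mem_coe, Nat.mem_divisors] at hq hq'
      rcases q with ⟨m, d⟩
      rcases q' with ⟨m', d'⟩
      simp only [Sigma.mk.injEq, heq_eq_eq] at h hq hq' ⊢
      obtain ⟨h1, h2⟩ := h
      subst h2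
      refine ⟨?_, rfl⟩
      have e1 := Nat.div_mul_cancel hq.2.1
      have e2 := Nat.div_mul_cancel hq'.2.1
      rw [← e1, ← e2, h1]
    have : ∑ q ∈ (rough y x).sigma (fun m => m.divisors), vonMangoldt q.2
        = ∑ q ∈ ((rough y x).sigma (fun m => m.divisors)).image
            (fun q : (Σ _ : ℕ, ℕ) => (⟨q.1 / q.2, q.2⟩ : (Σ _ : ℕ, ℕ))), vonMangoldt q.2 := by
      rw [sum_image hinj]
    rw [this]
    apply sum_le_sum_of_subset_of_nonneg
    · intro q hq
      rw [mem_image] at hq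
      obtain ⟨⟨m, d⟩, hq, rfl⟩ := hq
      rw [mem_sigma, Nat.mem_divisors, mem_rough] at hq
      simp only at hq
      obtain ⟨⟨⟨hm1, hmx⟩, hr⟩, hdm, hm0⟩ := hq
      have hd : 0 < d := Nat.pos_of_dvd_of_pos hdm (by omega)
      have hdle := Nat.le_of_dvd (by omega) hdm
      rw [mem_sigma, mem_rough, mem_Ioc]
      simp only
      have hq1 : 1 ≤ m / d := (Nat.one_le_div_iff hd).mpr hdle
      refine ⟨⟨⟨hq1, (Nat.div_le_self _ _).trans hmx⟩, ?_⟩, hd, ?_⟩
      · intro p hp hpd
        exact hr p hp (hpd.trans (Nat.div_dvd_of_dvd hdm))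
      · rw [Nat.le_div_iff_mul_le hq1]
        calc d * (m / d) = m := Nat.mul_div_cancel' hdm
          _ ≤ x := hmx
    · intros; exact vonMangoldt_nonneg
  rw [step1]
  refine step2.trans ?_
  rw [sum_sigma, mul_sum]
  apply sum_le_sum
  intro l hl
  have hl1 : 1 ≤ l := (mem_rough.mp hl).1.1
  have h := Chebyshev.psi_le_const_mul_self (x := (x : ℝ) / l) (by positivity)
  rw [Chebyshev.psi, Nat.floor_div_natCast, Nat.floor_natCast] at h
  calc _ ≤ (Real.log 4 + 4) * ((x : ℝ) / l) := h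
    _ = (Real.log 4 + 4) * x * (1 / l) := by ring

/-- Elementary sieve upper bound. -/
theorem card_rough_le {y x : ℕ} (hy : 2 ≤ y) (hyx : y ≤ x) :
    ((rough y x).card : ℝ) * Real.log y ≤ 60 * x := by
  have hx2 : 2 ≤ x := hy.trans hyx
  have hlogy : 0 < Real.log y := Real.log_pos (by exact_mod_cast (by omega : 1 < y))
  have hlogx : 0 < Real.log x := Real.log_pos (by exact_mod_cast (by omega : 1 < x))
  have hxpos : (0 : ℝ) < x := by exact_mod_cast (by omega : 0 < x)
  have hlog2 : (0.69 : ℝ) < Real.log 2 := by have := Real.log_two_gt_d9; linarith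
  have hlog2' : Real.log 2 < 0.7 := by have := Real.log_two_lt_d9; linarith
  have hlog4 : Real.log 4 < 1.4 := by
    rw [show (4 : ℝ) = 2 ^ 2 by norm_num, Real.log_pow]; push_cast; linarith
  have hlogx2 : (0.69 : ℝ) < Real.log x := by
    refine lt_of_lt_of_le hlog2 (Real.log_le_log (by norm_num) (by exact_mod_cast hx2))
  have hlogyx : Real.log y ≤ Real.log x :=
    Real.log_le_log (by exact_mod_cast (by omega : 0 < y)) (by exact_mod_cast hyx)
  -- split
  set F := rough y x with hF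
  have hsplit : (F.card : ℝ) * Real.log x ≤ Real.sqrt x * Real.log x +
      2 * ∑ m ∈ F, Real.log m := by
    have h1 : (F.card : ℝ) = ((F.filter (fun m : ℕ => (m : ℝ) ≤ Real.sqrt x)).card : ℝ)
        + ((F.filter (fun m : ℕ => ¬ (m : ℝ) ≤ Real.sqrt x)).card : ℝ) := by
      rw [← Nat.cast_add, card_filter_add_card_filter_not]
    have h2 : ((F.filter (fun m : ℕ => (m : ℝ) ≤ Real.sqrt x)).card : ℝ) ≤ Real.sqrt x := by
      have : F.filter (fun m : ℕ => (m : ℝ) ≤ Real.sqrt x) ⊆ Icc 1 ⌊Real.sqrt x⌋₊ := by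
        intro m hm
        rw [mem_filter, hF, mem_rough] at hm
        rw [mem_Icc]
        exact ⟨hm.1.1.1, Nat.le_floor hm.2⟩
      have h3 := card_le_card this
      rw [Nat.card_Icc] at h3
      calc _ ≤ ((⌊Real.sqrt x⌋₊ + 1 - 1 : ℕ) : ℝ) := by exact_mod_cast h3
        _ ≤ Real.sqrt x := by
            rw [Nat.add_sub_cancel]
            exact Nat.floor_le (Real.sqrt_nonneg _)
    have h3 : ((F.filter (fun m : ℕ => ¬ (m : ℝ) ≤ Real.sqrt x)).card : ℝ) * Real.log x
        ≤ 2 * ∑ m ∈ F, Real.log m := by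
      calc ((F.filter (fun m : ℕ => ¬ (m : ℝ) ≤ Real.sqrt x)).card : ℝ) * Real.log x
          = ∑ m ∈ F.filter (fun m : ℕ => ¬ (m : ℝ) ≤ Real.sqrt x), Real.log x := by
            rw [sum_const, nsmul_eq_mul]
        _ ≤ ∑ m ∈ F.filter (fun m : ℕ => ¬ (m : ℝ) ≤ Real.sqrt x), 2 * Real.log m := by
            apply sum_le_sum
            intro m hm
            rw [mem_filter] at hm
            have hlt : Real.sqrt x < m := not_le.mp hm.2
            have hs : 0 < Real.sqrt x := Real.sqrt_pos.mpr hxpos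
            have := Real.log_le_log hs hlt.le
            rw [Real.log_sqrt hxpos.le] at this
            linarith
        _ ≤ ∑ m ∈ F, 2 * Real.log m := by
            apply sum_le_sum_of_subset_of_nonneg (filter_subset _ _)
            intro m hm _
            have := (mem_rough.mp hm).1.1
            have h5 : 0 ≤ Real.log (m : ℝ) := Real.log_natCast_nonneg m
            linarith
        _ = 2 * ∑ m ∈ F, Real.log m := by rw [mul_sum]
    rw [h1, add_mul]
    have := mul_le_mul_of_nonneg_right h2 hlogx.le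
    linarith
  have hsum := sum_log_rough_le y x
  have hinv := sum_inv_rough hy hyx
  rw [← hF] at hsum hinv
  set S := ∑ l ∈ F, (1 : ℝ) / l with hS
  have hSnn : 0 ≤ S := by positivity
  -- sqrt x * log y ≤ 2 x
  have hsqrt : Real.sqrt x * Real.log y ≤ 2 * x := by
    have h1 : Real.log x ≤ 2 * Real.sqrt x := by
      have h2 := Real.log_le_sub_one_of_pos (Real.sqrt_pos.mpr hxpos)
      rw [Real.log_sqrt hxpos.le] at h2
      linarith
    calc Real.sqrt x * Real.log y ≤ Real.sqrt x * (2 * Real.sqrt x) := by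
          apply mul_le_mul_of_nonneg_left (hlogyx.trans h1) (Real.sqrt_nonneg _)
      _ = 2 * (Real.sqrt x * Real.sqrt x) := by ring
      _ = 2 * x := by rw [Real.mul_self_sqrt hxpos.le]
  -- combine
  have h1 : (F.card : ℝ) * Real.log x * Real.log y ≤ (Real.sqrt x * Real.log y) * Real.log x +
      2 * ((Real.log 4 + 4) * x * (S * Real.log y)) := by
    have h7 : 2 * ∑ m ∈ F, Real.log m ≤ 2 * ((Real.log 4 + 4) * x * S) := by linarith
    have := mul_le_mul_of_nonneg_right (hsplit.trans (add_le_add_right h7 _)) hlogy.le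
    linarith
  have h2 : (F.card : ℝ) * Real.log x * Real.log y ≤ 2 * x * Real.log x +
      2 * ((Real.log 4 + 4) * x * (1 + 2 * Real.log x)) := by
    refine h1.trans ?_
    gcongr
  have h3 : (F.card : ℝ) * Real.log y * Real.log x ≤ 60 * x * Real.log x := by
    have h4 : 2 * ((Real.log 4 + 4) * x * (1 + 2 * Real.log x)) ≤ 58 * x * Real.log x := by
      have h5 : 1 + 2 * Real.log x ≤ 4 * Real.log x := by linarith
      have h6 : 0 ≤ Real.log 4 := Real.log_nonneg (by norm_num)
      calc 2 * ((Real.log 4 + 4) * x * (1 + 2 * Real.log x))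
          ≤ 2 * ((1.4 + 4) * x * (4 * Real.log x)) := by gcongr
        _ ≤ 58 * x * Real.log x := by nlinarith [mul_pos hxpos hlogx]
    nlinarith
  exact le_of_mul_le_mul_right h3 hlogx

lemma card_rough_le_one {y x : ℕ} (hxy : x < y) : (rough y x).card ≤ 1 := by
  have : rough y x ⊆ {1} := by
    intro m hm
    rw [mem_rough] at hm
    rw [mem_singleton]
    by_contra h
    obtain ⟨p, hp, hpd⟩ := Nat.exists_prime_and_dvd h
    have h1 := hm.2 p hp hpd
    have h2 := Nat.le_of_dvd (by omega) hpd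
    omega
  exact (card_le_card this).trans (by simp)

end Pool.Agent.Helper4
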