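import Mathlib
import Pool.Agent.Helper4.Rough
import Pool.Agent.Helper4.CoprimeShift

open Finset

namespace Pool.Agent.Helper4.CoprimeShift

open Pool.Agent.Helper4

lemma a_succ_succ (n k : ℕ) : a n (k + 2) = sInf {m : ℕ | a n (k + 1) < m ∧
      ∀ i : Fin (k + 2), 1 ≤ (i : ℕ) → Int.gcd ((n : ℤ) - m) ((n : ℤ) - a n i) = 1} := by
  rw [a]

lemma a_one (n : ℕ) : a n 1 = 1 := by rw [a]

lemma a_spec {n k : ℕ} (hpos : 0 < a n (k + 2)) :
    a n (k + 1) < a n (k + 2) ∧
      ∀ i : ℕ, 1 ≤ i → i < k + 2 → Int.gcd ((n : ℤ) - a n (k + 2)) ((n : ℤ) - a n i) = 1 := by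
  have hne : {m : ℕ | a n (k + 1) < m ∧
      ∀ i : Fin (k + 2), 1 ≤ (i : ℕ) → Int.gcd ((n : ℤ) - m) ((n : ℤ) - a n i) = 1}.Nonempty := by
    by_contra h
    rw [Set.not_nonempty_iff_eq_empty] at h
    rw [a_succ_succ, h, Nat.sInf_empty] at hpos
    omega
  have hmem := Nat.sInf_mem hne
  rw [← a_succ_succ] at hmem
  refine ⟨hmem.1, ?_⟩
  intro i hi1 hi2
  exact hmem.2 ⟨i, hi2⟩ hi1

/-- terms with a later positive index are coprime (after the shift) to the earlier ones -/
lemma coprime_terms {n i j : ℕ} (hi : 1 ≤ i) (hij : i < j) (hpos : 0 < a n j)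
    (hin : a n i < n) (hjn : a n j < n) : Nat.Coprime (n - a n j) (n - a n i) := by
  obtain ⟨k, rfl⟩ : ∃ k, j = k + 2 := ⟨j - 2, by omega⟩
  have h := (a_spec hpos).2 i hi hij
  rw [← Nat.cast_sub hin.le, ← Nat.cast_sub hjn.le, Int.gcd_natCast_natCast] at h
  exact h

lemma smallDivisor_pos {n i : ℕ} (h : SmallDivisor n i) : 0 < a n i := by
  obtain ⟨p, hp, hpa, _⟩ := h
  exact lt_of_lt_of_le hp.pos hpa

lemma mem_indices {n i : ℕ} : i ∈ indices n ↔ (1 ≤ i ∧ i < n) ∧ a n i < n := by
  simp [indices]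

/-- the weight attached to a prime `p` -/
noncomputable def w (N n p : ℕ) : ℝ :=
  1 / ((Nat.log 2 p : ℝ) * p) +
    ∑ j ∈ Icc 1 (Nat.log 2 p), (1 : ℝ) / (j * p) *
      (((if n / p - j ∈ rough p (N / p) then 1 else 0 : ℕ)) : ℝ)

lemma w_nonneg (N n p : ℕ) : 0 ≤ w N n p := by
  unfold w; positivity

lemma term_le_w {N n i : ℕ} (hnN : n ≤ N) (hi : i ∈ indices n) (hsd : SmallDivisor n i) :
    (1 : ℝ) / a n i ≤ w N n (Nat.minFac (n - a n i)) := by
  obtain ⟨q, hq, hqa, hqd⟩ := hsd
  rw [mem_indices] at hi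
  have hlt := hi.2
  set t := a n i with ht
  set b := n - t with hb
  have hb1 : b ≠ 1 := by
    intro h; rw [h] at hqd; exact hq.one_lt.ne' (Nat.dvd_one.mp hqd)
  set p := Nat.minFac b with hp
  have hpp : p.Prime := Nat.minFac_prime hb1
  have hpq : p ≤ q := Nat.minFac_le_of_dvd hq.two_le hqd
  have hpt : p ≤ t := hpq.trans hqa
  have hppos : 0 < p := hpp.pos
  set j := t / p with hj
  have hj1 : 1 ≤ j := (Nat.one_le_div_iff hppos).mpr hpt
  obtain ⟨m, hm⟩ : p ∣ b := Nat.minFac_dvd b
  have hjp : j * p ≤ t := Nat.div_mul_le_self t p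
  have hlog1 : 1 ≤ Nat.log 2 p := by
    exact Nat.log_pos (by norm_num) hpp.two_le
  have htpos : (0 : ℝ) < t := by exact_mod_cast (lt_of_lt_of_le hppos hpt)
  have hjpR : ((j : ℝ) * p) ≤ t := by exact_mod_cast hjp
  have hpR : (0 : ℝ) < p := by exact_mod_cast hppos
  have hjR : (0 : ℝ) < j := by exact_mod_cast hj1
  by_cases hcase : j ≤ Nat.log 2 p
  · -- use the indicator term
    have hnm : n / p = j + m := by
      have hn : n = t + p * m := by omega
      rw [hn, Nat.add_mul_div_left _ _ hppos]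
    have hmem : n / p - j ∈ rough p (N / p) := by
      rw [mem_rough, hnm, Nat.add_sub_cancel_left]
      refine ⟨⟨?_, ?_⟩, ?_⟩
      · by_contra h
        have : m = 0 := by omega
        rw [this] at hm
        omega
      · calc m ≤ n / p := by omega
          _ ≤ N / p := Nat.div_le_div_right hnN
      · intro r hr hrm
        exact Nat.minFac_le_of_dvd hr.two_le (hrm.trans (by rw [hm]; exact Dvd.intro_left _ rfl))
    unfold w
    have h1 : (1 : ℝ) / (j * p) * (((if n / p - j ∈ rough p (N / p) then 1 else 0 : ℕ)) : ℝ)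
        ≤ ∑ j ∈ Icc 1 (Nat.log 2 p), (1 : ℝ) / (j * p) *
          (((if n / p - j ∈ rough p (N / p) then 1 else 0 : ℕ)) : ℝ) := by
      apply single_le_sum (f := fun j : ℕ => (1 : ℝ) / (j * p) *
          (((if n / p - j ∈ rough p (N / p) then 1 else 0 : ℕ)) : ℝ))
      · intros; positivity
      · rw [mem_Icc]; exact ⟨hj1, hcase⟩
    rw [if_pos hmem, Nat.cast_one, mul_one] at h1
    have h2 : (1 : ℝ) / t ≤ 1 / (j * p) := by
      apply one_div_le_one_div_of_le (by positivity) hjpR
    have h3 : (0 : ℝ) ≤ 1 / ((Nat.log 2 p : ℝ) * p) := by positivity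
    linarith
  · push Not at hcase
    unfold w
    have h1 : (0 : ℝ) ≤ ∑ j ∈ Icc 1 (Nat.log 2 p), (1 : ℝ) / (j * p) *
          (((if n / p - j ∈ rough p (N / p) then 1 else 0 : ℕ)) : ℝ) := by positivity
    have h2 : (1 : ℝ) / t ≤ 1 / ((Nat.log 2 p : ℝ) * p) := by
      apply one_div_le_one_div_of_le
      · have : (0 : ℝ) < Nat.log 2 p := by exact_mod_cast hlog1
        positivity
      · refine le_trans ?_ hjpR
        gcongr
    linarith

lemma minFac_injOn (n : ℕ) [DecidablePred (SmallDivisor n)] :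
    Set.InjOn (fun i => Nat.minFac (n - a n i)) ((indices n).filter (SmallDivisor n)) := by
  have key : ∀ i j, i ∈ (indices n).filter (SmallDivisor n) →
      j ∈ (indices n).filter (SmallDivisor n) → i < j →
      Nat.minFac (n - a n i) ≠ Nat.minFac (n - a n j) := by
    intro i j hi hj hij h
    rw [mem_filter, mem_indices] at hi hj
    have hc := coprime_terms hi.1.1.1 hij (smallDivisor_pos hj.2) hi.1.2 hj.1.2
    obtain ⟨q, hq, hqa, hqd⟩ := hi.2
    have hb1 : n - a n i ≠ 1 := by
      intro h; rw [h] at hqd; exact hq.one_lt.ne' (Nat.dvd_one.mp hqd)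
    have hp := Nat.minFac_prime hb1
    have h1 := Nat.minFac_dvd (n - a n i)
    have h2 := Nat.minFac_dvd (n - a n j)
    rw [← h] at h2
    exact Nat.not_coprime_of_dvd_of_dvd hp.one_lt h2 h1 hc
  intro i hi j hj h
  rw [mem_coe] at hi hj
  rcases lt_trichotomy i j with hlt | heq | hgt
  · exact absurd h (key i j hi hj hlt)
  · exact heq
  · exact absurd h.symm (key j i hj hi hgt)

lemma S1_le {N n : ℕ} (hnN : n ≤ N) :
    S1 n ≤ ∑ p ∈ (range (N + 1)).filter Nat.Prime, w N n p := by
  classical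
  unfold S1
  calc ∑ i ∈ (indices n).filter (SmallDivisor n), (1 : ℝ) / a n i
      ≤ ∑ i ∈ (indices n).filter (SmallDivisor n), w N n (Nat.minFac (n - a n i)) := by
        apply sum_le_sum
        intro i hi
        rw [mem_filter] at hi
        exact term_le_w hnN hi.1 hi.2
    _ = ∑ p ∈ ((indices n).filter (SmallDivisor n)).image (fun i => Nat.minFac (n - a n i)),
          w N n p := by
        rw [sum_image (minFac_injOn n)]
    _ ≤ ∑ p ∈ (range (N + 1)).filter Nat.Prime, w N n p := by
        apply sum_le_sum_of_subset_of_nonneg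
        · intro p hp
          rw [mem_image] at hp
          obtain ⟨i, hi, rfl⟩ := hp
          rw [mem_filter, mem_indices] at hi
          obtain ⟨q, hq, hqa, hqd⟩ := hi.2
          have hb1 : n - a n i ≠ 1 := by
            intro h; rw [h] at hqd; exact hq.one_lt.ne' (Nat.dvd_one.mp hqd)
          have hpr := Nat.minFac_prime hb1
          rw [mem_filter, mem_range]
          refine ⟨?_, hpr⟩
          have hle : Nat.minFac (n - a n i) ≤ n - a n i := Nat.minFac_le (by omega)
          omega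
        · intros; exact w_nonneg _ _ _

lemma card_shift_le (N p j : ℕ) :
    ((range (N + 1)).filter (fun n => n / p - j ∈ rough p (N / p))).card
      ≤ p * (rough p (N / p)).card := by
  rcases Nat.eq_zero_or_pos p with h0 | hp
  · subst h0
    simp [rough]
  have hinj : Set.InjOn (fun n => (n / p - j, n % p))
      ((range (N + 1)).filter (fun n => n / p - j ∈ rough p (N / p))) := by
    intro n hn n' hn' h
    rw [mem_coe, mem_filter, mem_rough] at hn hn'
    simp only [Prod.mk.injEq] at h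
    have h1 : n / p = n' / p := by omega
    rw [← Nat.div_add_mod n p, ← Nat.div_add_mod n' p, h1, h.2]
  calc ((range (N + 1)).filter (fun n => n / p - j ∈ rough p (N / p))).card
      = (((range (N + 1)).filter (fun n => n / p - j ∈ rough p (N / p))).image
          (fun n => (n / p - j, n % p))).card := (card_image_of_injOn hinj).symm
    _ ≤ (rough p (N / p) ×ˢ range p).card := by
        apply card_le_card
        intro q hq
        rw [mem_image] at hq
        obtain ⟨n, hn, rfl⟩ := hq
        rw [mem_filter] at hn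
        rw [mem_product, mem_range]
        exact ⟨hn.2, Nat.mod_lt _ hp⟩
    _ = p * (rough p (N / p)).card := by rw [card_product, card_range, mul_comm]

lemma sum_inv_le_sqrt (k : ℕ) : ∑ j ∈ Icc 1 k, (1 : ℝ) / j ≤ 2 * Real.sqrt k := by
  induction k with
  | zero => simp
  | succ k ih =>
    rw [sum_Icc_succ_top (by omega)]
    have h1 : (1 : ℝ) / ((k + 1 : ℕ) : ℝ) ≤ 2 * Real.sqrt ((k + 1 : ℕ) : ℝ) - 2 * Real.sqrt k := by
      push_cast
      set x := Real.sqrt ((k : ℝ) + 1) with hx
      set y := Real.sqrt (k : ℝ) with hy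
      have hx2 : x ^ 2 = (k : ℝ) + 1 := Real.sq_sqrt (by positivity)
      have hy2 : y ^ 2 = (k : ℝ) := Real.sq_sqrt (by positivity)
      have hy0 : 0 ≤ y := Real.sqrt_nonneg _
      have hx1 : 1 ≤ x := by
        rw [hx]; rw [Real.one_le_sqrt]; linarith [(Nat.cast_nonneg k : (0 : ℝ) ≤ k)]
      have hyx : y ≤ x := Real.sqrt_le_sqrt (by linarith)
      rw [← hx2, div_le_iff₀ (by positivity)]
      have h3 : (x - y) * (x + y) = 1 := by ring_nf; rw [hx2, hy2]; ring
      have h4 : 0 ≤ x - y := by linarith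
      nlinarith [mul_nonneg h4 hy0, mul_nonneg h4 (by linarith : (0:ℝ) ≤ x - 1), mul_nonneg h4 (by positivity : (0:ℝ) ≤ x), mul_nonneg h4 (mul_nonneg (by linarith : (0:ℝ) ≤ x - 1) (by positivity : (0:ℝ) ≤ x))]
    linarith

lemma log_ge_natlog (p : ℕ) (hp : 2 ≤ p) : (Nat.log 2 p : ℝ) / 2 ≤ Real.log p := by
  have hlog2 : (0.69 : ℝ) < Real.log 2 := by have := Real.log_two_gt_d9; linarith
  have h1 : 2 ^ Nat.log 2 p ≤ p := Nat.pow_log_le_self 2 (by omega)
  have h2 : Real.log ((2 : ℝ) ^ Nat.log 2 p) ≤ Real.log p := by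
    apply Real.log_le_log (by positivity)
    exact_mod_cast h1
  rw [Real.log_pow] at h2
  have : (0 : ℝ) ≤ Nat.log 2 p := by positivity
  nlinarith

lemma sum_w_le {N p : ℕ} (hN : 1 ≤ N) (hp : p.Prime) :
    ∑ n ∈ range (N + 1), w N n p ≤
      242 * N * (Real.sqrt (Nat.log 2 p)) / (Nat.log 2 p * p) + 2 * Real.sqrt (Nat.log 2 p) := by
  set k := Nat.log 2 p with hk
  have hk1 : 1 ≤ k := Nat.log_pos (by norm_num) hp.two_le
  have hkR : (1 : ℝ) ≤ k := by exact_mod_cast hk1
  have hpR : (0 : ℝ) < p := by exact_mod_cast hp.pos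
  have hNR : (1 : ℝ) ≤ N := by exact_mod_cast hN
  have hs1 : 1 ≤ Real.sqrt k := by rw [Real.one_le_sqrt]; exact hkR
  have hrough : ((rough p (N / p)).card : ℝ) ≤ 120 * N / (k * p) + 1 := by
    by_cases h : p ≤ N / p
    · have h1 := card_rough_le hp.two_le h
      have h2 := log_ge_natlog p hp.two_le
      rw [← hk] at h2
      have h3 : ((N / p : ℕ) : ℝ) ≤ N / p := Nat.cast_div_le
      have h4 : ((rough p (N / p)).card : ℝ) * (k / 2) ≤ 60 * (N / p) := by
        calc _ ≤ ((rough p (N / p)).card : ℝ) * Real.log p := by gcongr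
          _ ≤ 60 * ((N / p : ℕ) : ℝ) := h1
          _ ≤ _ := by gcongr
      have h5 : ((rough p (N / p)).card : ℝ) ≤ 120 * N / (k * p) := by
        rw [le_div_iff₀ (by positivity)]
        have : 60 * ((N : ℝ) / p) * p = 60 * N := by field_simp
        nlinarith
      linarith
    · push Not at h
      have h1 := card_rough_le_one h
      have h2 : ((rough p (N / p)).card : ℝ) ≤ 1 := by exact_mod_cast h1
      have h3 : (0 : ℝ) ≤ 120 * N / (k * p) := by positivity
      linarith
  calc ∑ n ∈ range (N + 1), w N n p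
      = (N + 1) * (1 / ((k : ℝ) * p)) + ∑ j ∈ Icc 1 k, (1 : ℝ) / (j * p) *
          (((range (N + 1)).filter (fun n => n / p - j ∈ rough p (N / p))).card : ℝ) := by
        unfold w
        rw [sum_add_distrib, sum_const, card_range, nsmul_eq_mul, sum_comm]
        push_cast
        congr 1
        apply sum_congr rfl
        intro j _
        rw [← mul_sum]
        congr 1
        rw [card_filter]
        push_cast
        rfl
    _ ≤ (N + 1) * (1 / ((k : ℝ) * p)) + ∑ j ∈ Icc 1 k, (1 : ℝ) / (j * p) *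
          (p * (120 * N / (k * p) + 1)) := by
        gcongr with j hj
        calc (((range (N + 1)).filter (fun n => n / p - j ∈ rough p (N / p))).card : ℝ)
            ≤ ((p * (rough p (N / p)).card : ℕ) : ℝ) := by exact_mod_cast card_shift_le N p j
          _ = p * ((rough p (N / p)).card : ℝ) := by push_cast; ring
          _ ≤ _ := by gcongr
    _ = (N + 1) * (1 / ((k : ℝ) * p)) + (∑ j ∈ Icc 1 k, (1 : ℝ) / j) *
          (120 * N / (k * p) + 1) := by
        rw [sum_mul]
        congr 1
        apply sum_congr rfl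
        intro j hj
        rw [mem_Icc] at hj
        have : (0 : ℝ) < j := by exact_mod_cast hj.1
        field_simp
    _ ≤ (N + 1) * (1 / ((k : ℝ) * p)) + (2 * Real.sqrt k) *
          (120 * N / (k * p) + 1) := by
        have := sum_inv_le_sqrt k
        gcongr
    _ ≤ (2 * N * Real.sqrt k) * (1 / ((k : ℝ) * p)) + (2 * Real.sqrt k) *
          (120 * N / (k * p) + 1) := by
        gcongr
        nlinarith
    _ = _ := by field_simp; ring

lemma card_primes_block (k : ℕ) (hk : 1 ≤ k) (s : Finset ℕ)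
    (hs : ∀ p ∈ s, p.Prime ∧ Nat.log 2 p = k) : (s.card : ℝ) ≤ 4 * 2 ^ k / k := by
  have h1 : (s.card : ℝ) * (k * Real.log 2) ≤ Real.log 4 * 2 ^ (k + 1) := by
    calc (s.card : ℝ) * (k * Real.log 2) = ∑ p ∈ s, (k : ℝ) * Real.log 2 := by
          rw [sum_const, nsmul_eq_mul]
      _ ≤ ∑ p ∈ s, Real.log p := by
          apply sum_le_sum
          intro p hp
          obtain ⟨hpp, hpk⟩ := hs p hp
          have h2 : 2 ^ Nat.log 2 p ≤ p := Nat.pow_log_le_self 2 hpp.ne_zero
          rw [hpk] at h2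
          have h3 : Real.log ((2 : ℝ) ^ k) ≤ Real.log p := by
            apply Real.log_le_log (by positivity)
            exact_mod_cast h2
          rwa [Real.log_pow] at h3
      _ ≤ Chebyshev.theta ((2 : ℝ) ^ (k + 1)) := by
          rw [Chebyshev.theta]
          apply sum_le_sum_of_subset_of_nonneg
          · intro p hp
            obtain ⟨hpp, hpk⟩ := hs p hp
            rw [mem_filter, mem_Ioc]
            refine ⟨⟨hpp.pos, ?_⟩, hpp⟩
            have h2 : p < 2 ^ (Nat.log 2 p + 1) := Nat.lt_pow_succ_log_self (by norm_num) p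
            rw [hpk] at h2
            apply Nat.le_floor
            exact_mod_cast h2.le
          · intro p hp _
            exact Real.log_natCast_nonneg p
      _ ≤ Real.log 4 * 2 ^ (k + 1) := Chebyshev.theta_le_log4_mul_x (by positivity)
  have hlog2 : 0 < Real.log 2 := Real.log_pos (by norm_num)
  have h4 : Real.log 4 = 2 * Real.log 2 := by
    rw [show (4 : ℝ) = 2 ^ 2 by norm_num, Real.log_pow]; push_cast; ring
  have hkR : (0 : ℝ) < k := by exact_mod_cast hk
  rw [le_div_iff₀ hkR]
  have h5 : (s.card : ℝ) * k * Real.log 2 ≤ 4 * 2 ^ k * Real.log 2 := by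
    rw [h4] at h1
    calc (s.card : ℝ) * k * Real.log 2 = (s.card : ℝ) * (k * Real.log 2) := by ring
      _ ≤ 2 * Real.log 2 * 2 ^ (k + 1) := h1
      _ = _ := by ring
  exact le_of_mul_le_mul_right h5 hlog2

/-- The mean of `S_1` is bounded. -/
theorem sum_S1_le : ∃ C : ℝ, ∀ N : ℕ, ∑ n ∈ Icc 2 N, S1 n ≤ C * N := by
  classical
  have hsummable : Summable (fun k : ℕ => 1 / (k : ℝ) ^ (3 / 2 : ℝ)) :=
    Real.summable_one_div_nat_rpow.mpr (by norm_num)
  set Z := ∑' k : ℕ, 1 / (k : ℝ) ^ (3 / 2 : ℝ) with hZ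
  refine ⟨968 * Z + 16, fun N => ?_⟩
  rcases Nat.eq_zero_or_pos N with h0 | hN
  · subst h0; simp
  set P := (range (N + 1)).filter Nat.Prime with hP
  have hNR : (1 : ℝ) ≤ N := by exact_mod_cast hN
  have hZ0 : 0 ≤ Z := tsum_nonneg (fun k => by positivity)
  calc ∑ n ∈ Icc 2 N, S1 n ≤ ∑ n ∈ Icc 2 N, ∑ p ∈ P, w N n p := by
        apply sum_le_sum
        intro n hn
        exact S1_le (mem_Icc.mp hn).2
    _ ≤ ∑ n ∈ range (N + 1), ∑ p ∈ P, w N n p := by
        apply sum_le_sum_of_subset_of_nonneg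
        · intro n hn
          rw [mem_Icc] at hn; rw [mem_range]; omega
        · intros; exact sum_nonneg (fun _ _ => w_nonneg _ _ _)
    _ = ∑ p ∈ P, ∑ n ∈ range (N + 1), w N n p := sum_comm
    _ ≤ ∑ p ∈ P, (242 * N * (Real.sqrt (Nat.log 2 p)) / (Nat.log 2 p * p)
          + 2 * Real.sqrt (Nat.log 2 p)) := by
        apply sum_le_sum
        intro p hp
        exact sum_w_le hN (mem_filter.mp hp).2
    _ = ∑ k ∈ Icc 1 (Nat.log 2 N), ∑ p ∈ P.filter (fun p => Nat.log 2 p = k),
          (242 * N * (Real.sqrt (Nat.log 2 p)) / (Nat.log 2 p * p)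
          + 2 * Real.sqrt (Nat.log 2 p)) := by
        rw [sum_fiberwise_of_maps_to]
        intro p hp
        rw [hP, mem_filter, mem_range] at hp
        rw [mem_Icc]
        exact ⟨Nat.log_pos (by norm_num) hp.2.two_le, Nat.log_mono_right (by omega)⟩
    _ ≤ ∑ k ∈ Icc 1 (Nat.log 2 N), (968 * N * (1 / (k : ℝ) ^ (3 / 2 : ℝ)) + 8 * 2 ^ k) := by
        apply sum_le_sum
        intro k hk
        rw [mem_Icc] at hk
        have hkR : (1 : ℝ) ≤ k := by exact_mod_cast hk.1
        have hs1 : 1 ≤ Real.sqrt k := by rw [Real.one_le_sqrt]; exact hkR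
        have hss : Real.sqrt k * Real.sqrt k = k := Real.mul_self_sqrt (by positivity)
        have hrp : (k : ℝ) ^ (3 / 2 : ℝ) = k * Real.sqrt k := by
          rw [Real.sqrt_eq_rpow, show (3 / 2 : ℝ) = 1 + 1 / 2 by norm_num,
            Real.rpow_add (by positivity), Real.rpow_one]
        have hsk : Real.sqrt k ≤ k := by nlinarith
        have hcard := card_primes_block k hk.1 (P.filter (fun p => Nat.log 2 p = k)) (by
          intro p hp
          rw [mem_filter, hP, mem_filter] at hp
          exact ⟨hp.1.2, hp.2⟩)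
        calc ∑ p ∈ P.filter (fun p => Nat.log 2 p = k),
              (242 * N * (Real.sqrt (Nat.log 2 p)) / (Nat.log 2 p * p)
              + 2 * Real.sqrt (Nat.log 2 p))
            ≤ ∑ p ∈ P.filter (fun p => Nat.log 2 p = k),
              (242 * N * (Real.sqrt k) / (k * 2 ^ k) + 2 * Real.sqrt k) := by
              apply sum_le_sum
              intro p hp
              rw [mem_filter, hP, mem_filter] at hp
              rw [hp.2]
              have h2 : 2 ^ Nat.log 2 p ≤ p := Nat.pow_log_le_self 2 hp.1.2.ne_zero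
              rw [hp.2] at h2
              have h3 : (2 : ℝ) ^ k ≤ p := by exact_mod_cast h2
              gcongr
          _ = ((P.filter (fun p => Nat.log 2 p = k)).card : ℝ) *
              (242 * N * (Real.sqrt k) / (k * 2 ^ k) + 2 * Real.sqrt k) := by
              rw [sum_const, nsmul_eq_mul]
          _ ≤ (4 * 2 ^ k / k) * (242 * N * (Real.sqrt k) / (k * 2 ^ k) + 2 * Real.sqrt k) := by
              gcongr
          _ = 968 * N * (Real.sqrt k / (k * k)) + 8 * 2 ^ k * (Real.sqrt k / k) := by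
              have : (2 : ℝ) ^ k ≠ 0 := by positivity
              field_simp
              ring
          _ ≤ _ := by
              have e1 : Real.sqrt k / (k * k) = 1 / (k : ℝ) ^ (3 / 2 : ℝ) := by
                rw [hrp, div_eq_div_iff (by positivity) (by positivity)]
                nlinarith
              have e2 : Real.sqrt k / k ≤ 1 := by
                rw [div_le_one (by positivity)]; exact hsk
              rw [e1]
              have : 8 * (2 : ℝ) ^ k * (Real.sqrt k / k) ≤ 8 * 2 ^ k * 1 := by gcongr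
              linarith
    _ = 968 * N * ∑ k ∈ Icc 1 (Nat.log 2 N), (1 / (k : ℝ) ^ (3 / 2 : ℝ)) +
          8 * ∑ k ∈ Icc 1 (Nat.log 2 N), (2 : ℝ) ^ k := by
        rw [sum_add_distrib, ← mul_sum, ← mul_sum]
    _ ≤ 968 * N * Z + 8 * (2 * N) := by
        have h1 : ∑ k ∈ Icc 1 (Nat.log 2 N), (1 / (k : ℝ) ^ (3 / 2 : ℝ)) ≤ Z :=
          hsummable.sum_le_tsum _ (fun _ _ => by positivity)
        have h2 : ∑ k ∈ Icc 1 (Nat.log 2 N), (2 : ℝ) ^ k ≤ 2 * N := by
          have h3 : ∑ k ∈ Icc 1 (Nat.log 2 N), (2 : ℝ) ^ k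
              ≤ ∑ k ∈ range (Nat.log 2 N + 1), (2 : ℝ) ^ k := by
            apply sum_le_sum_of_subset_of_nonneg
            · intro k hk
              rw [mem_Icc] at hk; rw [mem_range]; omega
            · intros; positivity
          have h4 : ∑ k ∈ range (Nat.log 2 N + 1), (2 : ℝ) ^ k = 2 ^ (Nat.log 2 N + 1) - 1 := by
            rw [geom_sum_eq (by norm_num)]; norm_num
          have h5 : ((2 : ℝ) ^ (Nat.log 2 N)) ≤ N := by
            exact_mod_cast Nat.pow_log_le_self 2 (by omega)
          rw [h4, pow_succ] at h3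
          linarith
        gcongr
    _ = (968 * Z + 16) * N := by ring

end Pool.Agent.Helper4.CoprimeShift
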